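import Pool.Agent.N993.WX.Stm

set_option autoImplicit false

/-!
Project WX, UNIF: the number of words with a given reduction depends only on the length of the
reduction (helper562).
-/

namespace Pool.Agent.N562.WX

open Finset
open Pool.Agent.N993.WT (RW flip)
open Pool.Agent.N993.WX

variable {n : ℕ}

/-- the number of the words with reduction `v` -/
def N (Y : Finset (Fin n)) (l : ℕ) (v : List (Fin n × Bool)) : ℕ :=
  ((univ : Finset (Fin l → Fin n × Bool)).filter (fun u => red Y (List.ofFn u) = v)).card

/-- the recursion -/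
def C (a b : ℕ) : ℕ → ℕ → ℕ
  | 0, 0 => 1
  | 0, _ + 1 => 0
  | l + 1, 0 => a * C a b l 0 + b * C a b l 1
  | l + 1, k + 1 => a * C a b l (k + 1) + (C a b l k + (b - 1) * C a b l (k + 2))

theorem N_succ (Y : Finset (Fin n)) (l : ℕ) (v : List (Fin n × Bool)) :
    N Y (l + 1) v = ∑ z : Fin n × Bool,
      ((univ : Finset (Fin l → Fin n × Bool)).filter
        (fun u => red Y (z :: List.ofFn u) = v)).card := by
  unfold N
  rw [card_filter, ← (Fin.consEquiv (fun _ : Fin (l + 1) => Fin n × Bool)).sum_comp,
    Fintype.sum_prod_type]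
  refine sum_congr rfl fun z _ => ?_
  rw [card_filter]
  refine sum_congr rfl fun u _ => ?_
  have : List.ofFn ((Fin.consEquiv (fun _ : Fin (l + 1) => Fin n × Bool)) (z, u)) =
      z :: List.ofFn u := List.ofFn_cons z u
  rw [this]

theorem mk_flip (z : Fin n × Bool) :
    FreeGroup.mk [flip z] * FreeGroup.mk [z] = 1 := by
  have h : (FreeGroup.mk [z])⁻¹ = FreeGroup.mk [flip z] := rfl
  rw [← h, inv_mul_cancel]

theorem iff_inv (z : Fin n × Bool) (F v : List (Fin n × Bool)) (hv : FreeGroup.reduce v = v) :
    FreeGroup.reduce (z :: F) = v ↔ FreeGroup.reduce F = FreeGroup.reduce (flip z :: v) := by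
  have e1 : ∀ (y : Fin n × Bool) (L : List (Fin n × Bool)),
      FreeGroup.mk (y :: L) = FreeGroup.mk [y] * FreeGroup.mk L := fun y L => rfl
  constructor
  · intro h
    apply FreeGroup.reduce.sound
    rw [← hv] at h
    have h2 := FreeGroup.reduce.exact h
    rw [e1, ← h2, e1 z F, ← mul_assoc, mk_flip, one_mul]
  · intro h
    have h2 := FreeGroup.reduce.exact h
    rw [← hv]
    apply FreeGroup.reduce.sound
    rw [e1, h2, e1 (flip z) v, ← mul_assoc]
    have h3 : FreeGroup.mk [z] * FreeGroup.mk [flip z] = 1 := by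
      have h : (FreeGroup.mk [z])⁻¹ = FreeGroup.mk [flip z] := rfl
      rw [← h, mul_inv_cancel]
    rw [h3, one_mul]

theorem reduce_flip (z hd : Fin n × Bool) (tl : List (Fin n × Bool))
    (h : FreeGroup.reduce (hd :: tl) = hd :: tl) :
    FreeGroup.reduce (flip z :: hd :: tl) = if z = hd then tl else flip z :: hd :: tl := by
  rw [FreeGroup.reduce.cons, h]
  change (if (flip z).1 = hd.1 ∧ (flip z).2 = !hd.2 then tl else flip z :: hd :: tl) = _
  have : ((flip z).1 = hd.1 ∧ (flip z).2 = !hd.2) ↔ z = hd := by
    unfold Pool.Agent.N993.WT.flip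
    simp only
    rw [Prod.ext_iff]
    constructor
    · rintro ⟨h1, h2⟩
      exact ⟨h1, by simpa using h2⟩
    · rintro ⟨h1, h2⟩
      exact ⟨h1, by rw [h2]⟩
  by_cases hz : z = hd
  · rw [if_pos (this.2 hz), if_pos hz]
  · rw [if_neg (fun h => hz (this.1 h)), if_neg hz]

theorem red_nil (Y : Finset (Fin n)) : red Y [] = [] := rfl

theorem red_not {Y : Finset (Fin n)} {z : Fin n × Bool} (hz : z.1 ∉ Y)
    (u : List (Fin n × Bool)) : red Y (z :: u) = red Y u := by
  unfold red
  rw [List.filter_cons_of_neg]
  simpa using hz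

theorem red_mem {Y : Finset (Fin n)} {z : Fin n × Bool} (hz : z.1 ∈ Y)
    (u v : List (Fin n × Bool)) (hv : FreeGroup.reduce v = v) :
    red Y (z :: u) = v ↔ red Y u = FreeGroup.reduce (flip z :: v) := by
  unfold red
  rw [List.filter_cons_of_pos (by simpa using hz)]
  exact iff_inv z _ v hv

theorem main (Y : Finset (Fin n)) (a b : ℕ)
    (ha : a = ((univ : Finset (Fin n × Bool)).filter (fun z => z.1 ∉ Y)).card)
    (hb : b = ((univ : Finset (Fin n × Bool)).filter (fun z => ¬ z.1 ∉ Y)).card) :
    ∀ (l : ℕ) (v : List (Fin n × Bool)), FreeGroup.reduce v = v → (∀ y ∈ v, y.1 ∈ Y) →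
      N Y l v = C a b l v.length := by
  intro l
  induction l with
  | zero =>
    intro v _ _
    unfold N
    rcases v with _ | ⟨hd, tl⟩
    · simp [red_nil, C]
    · simp [red_nil, C]
  | succ l ih =>
    intro v hv hY
    rw [N_succ, ← sum_filter_add_sum_filter_not univ (fun z : Fin n × Bool => z.1 ∉ Y)]
    have e1 : ∑ z ∈ univ.filter (fun z : Fin n × Bool => z.1 ∉ Y),
        ((univ : Finset (Fin l → Fin n × Bool)).filter
          (fun u => red Y (z :: List.ofFn u) = v)).card = a * C a b l v.length := by
      rw [ha, ← smul_eq_mul, ← sum_const]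
      refine sum_congr rfl fun z hz => ?_
      rw [mem_filter] at hz
      simp_rw [red_not hz.2]
      rw [← ha]
      exact ih v hv hY
    have e2 : ∀ z ∈ univ.filter (fun z : Fin n × Bool => ¬ z.1 ∉ Y),
        ((univ : Finset (Fin l → Fin n × Bool)).filter
          (fun u => red Y (z :: List.ofFn u) = v)).card = N Y l (FreeGroup.reduce (flip z :: v)) := by
      intro z hz
      rw [mem_filter, not_not] at hz
      unfold N
      congr 1
      ext u
      rw [mem_filter, mem_filter, red_mem hz.2 _ v hv]
    rw [e1, sum_congr rfl e2]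
    rcases v with _ | ⟨hd, tl⟩
    · have e3 : ∀ z ∈ univ.filter (fun z : Fin n × Bool => ¬ z.1 ∉ Y),
          N Y l (FreeGroup.reduce (flip z :: [])) = C a b l 1 := by
        intro z hz
        rw [mem_filter, not_not] at hz
        have h1 : FreeGroup.reduce [flip z] = [flip z] := rfl
        rw [h1, ih [flip z] h1]
        · rfl
        · intro y hy
          rw [List.mem_singleton] at hy
          rw [hy]
          exact hz.2
      rw [sum_congr rfl e3, sum_const, smul_eq_mul, ← hb]
      rfl
    · have e3 : ∀ z ∈ univ.filter (fun z : Fin n × Bool => ¬ z.1 ∉ Y),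
          N Y l (FreeGroup.reduce (flip z :: hd :: tl)) =
            if z = hd then C a b l tl.length else C a b l (tl.length + 2) := by
        intro z hz
        rw [mem_filter, not_not] at hz
        have h1 := reduce_flip z hd tl hv
        have h2 : FreeGroup.reduce (FreeGroup.reduce (flip z :: hd :: tl)) =
            FreeGroup.reduce (flip z :: hd :: tl) := FreeGroup.reduce.idem
        rw [h1] at h2 ⊢
        by_cases hzh : z = hd
        · rw [if_pos hzh] at h2 ⊢
          rw [if_pos hzh]
          exact ih tl h2 fun y hy => hY y (List.mem_cons_of_mem _ hy)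
        · rw [if_neg hzh] at h2 ⊢
          rw [if_neg hzh, ih _ h2]
          · rfl
          · intro y hy
            rw [List.mem_cons] at hy
            rcases hy with hy | hy
            · rw [hy]
              exact hz.2
            · exact hY y hy
      rw [sum_congr rfl e3]
      have hmem : hd ∈ univ.filter (fun z : Fin n × Bool => ¬ z.1 ∉ Y) := by
        rw [mem_filter, not_not]
        exact ⟨mem_univ _, hY hd List.mem_cons_self⟩
      rw [← add_sum_erase _ _ hmem, if_pos rfl]
      have e4 : ∀ z ∈ (univ.filter (fun z : Fin n × Bool => ¬ z.1 ∉ Y)).erase hd,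
          (if z = hd then C a b l tl.length else C a b l (tl.length + 2)) =
            C a b l (tl.length + 2) := by
        intro z hz
        rw [if_neg (ne_of_mem_erase hz)]
      rw [sum_congr rfl e4, sum_const, smul_eq_mul, card_erase_of_mem hmem, ← hb]
      rfl

theorem reduced {k : ℕ} (g : RW n k) : FreeGroup.reduce (List.ofFn g.1) = List.ofFn g.1 := by
  apply FreeGroup.IsReduced.reduce_eq
  unfold FreeGroup.IsReduced
  rw [List.isChain_ofFn]
  intro i hi h
  have h1 := g.2 ⟨i, by omega⟩ ⟨i + 1, hi⟩ rfl
  by_contra h2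
  apply h1
  unfold Pool.Agent.N993.WT.flip
  refine Prod.ext h.symm ?_
  simp only
  rw [Bool.eq_not]
  exact fun h3 => h2 h3.symm

theorem t_unif : S_UNIF := by
  intro n l k Y g g' hg hg'
  have h1 : ∀ v : List (Fin n × Bool),
      Nat.card {u : Fin l → Fin n × Bool // red Y (List.ofFn u) = v} = N Y l v := by
    intro v
    rw [Nat.card_eq_fintype_card, Fintype.card_subtype]
    rfl
  rw [h1, h1, main Y _ _ rfl rfl l _ (reduced g), main Y _ _ rfl rfl l _ (reduced g'),
    List.length_ofFn, List.length_ofFn]
  · intro y hy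
    rw [List.mem_ofFn] at hy
    obtain ⟨i, rfl⟩ := hy
    exact hg' i
  · intro y hy
    rw [List.mem_ofFn] at hy
    obtain ⟨i, rfl⟩ := hy
    exact hg i

end Pool.Agent.N562.WX
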